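import Pool.Agent.H342_Semi.Pos

set_option autoImplicit false

/-!
# The semigroup generated by a finite subset of a group of exponential growth

Let `A` be a finite subset of a group.  If the group generated by `A` has growth at least `exp(c n^a)`,
then the semigroup generated by `A` has growth at least `exp(δ n^(a/(1+a)))`, `δ > 0`.  In particular
(`a = 1`), if the group of left quotients of a finitely generated cancellative semigroup `S` has
exponential growth, then the growth of `S` is at least `exp(δ √n)`.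
-/

namespace Pool.Agent.Results.MP_b57530_al.SqrtLower

open Pool.Agent.H342_Gap Pool.Agent.H342_Semi

theorem result (G : Type) [Group G] (A : Finset G) (a c : ℝ) (ha : 0 < a) (hc : 0 < c)
    (h : ∀ n : ℕ, Real.exp (c * (n : ℝ) ^ a) ≤
      (({g : G | ∃ l : List G, (∀ x ∈ l, x ∈ A ∨ x⁻¹ ∈ A) ∧ l.length ≤ n ∧ l.prod = g}.ncard : ℝ))) :
    ∃ δ : ℝ, 0 < δ ∧ ∀ n : ℕ, Real.exp (δ * (n : ℝ) ^ (a / (1 + a))) ≤
      (({g : G | ∃ l : List G, (∀ x ∈ l, x ∈ A) ∧ l.length ≤ n ∧ l.prod = g}.ncard : ℝ)) := by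
  have e1 : ∀ n, {g : G | ∃ l : List G, (∀ x ∈ l, x ∈ A ∨ x⁻¹ ∈ A) ∧ l.length ≤ n ∧ l.prod = g} =
      Ball (A : Set G) n := by
    intro n
    ext g
    constructor
    · rintro ⟨l, h1, h2, h3⟩
      exact ⟨l, h2, by simpa using h1, h3⟩
    · rintro ⟨l, h1, h2, h3⟩
      exact ⟨l, by simpa using h2, h1, h3⟩
  have h' : ∀ n : ℕ, Real.exp (c * (n : ℝ) ^ a) ≤ gro (A : Set G) n := by
    intro n
    have := h n
    rw [e1] at this
    exact this
  exact pos_lower (A := (A : Set G)) A.finite_toSet ha hc h'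

end Pool.Agent.Results.MP_b57530_al.SqrtLower
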